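import Pool.Agent.H72.AAP.Targets

/-!
# Row SM2 (MP_3cf473_nt): sets of integers without multiplicative cubes
-/

namespace Pool.Agent.H69.AAP

open Pool.Agent.H72.AAP Finset

namespace SM2

/-- the tuples of primes in dyadic intervals whose product with `m` is in `S` -/
noncomputable def HH (k : ℕ) (y : ℝ) (S : Finset ℕ) (e : Fin k → ℕ) (m : ℕ) :
    Finset (Fin k → ℕ) := by
  classical
  exact (Fintype.piFinset fun i => Ico (2 ^ e i) (2 ^ (e i + 1))).filter fun p =>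
    Function.Injective p ∧ (∀ i, (p i).Prime) ∧ (∀ i, y < (p i : ℝ)) ∧ m * ∏ i, p i ∈ S

theorem mem_HH {k : ℕ} {y : ℝ} {S : Finset ℕ} {e : Fin k → ℕ} {m : ℕ} {p : Fin k → ℕ} :
    p ∈ HH k y S e m ↔ (∀ i, 2 ^ e i ≤ p i ∧ p i < 2 ^ (e i + 1)) ∧
      Function.Injective p ∧ (∀ i, (p i).Prime) ∧ (∀ i, y < (p i : ℝ)) ∧
        m * ∏ i, p i ∈ S := by
  unfold HH
  rw [Finset.mem_filter, Fintype.mem_piFinset]
  simp only [Finset.mem_Ico]

theorem card_HH {k : ℕ} {C0 : ℝ} (hC0 : 0 < C0)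
    (hbox : ∀ (α : Type) [DecidableEq α]
      (A : Fin k → Finset α) (N : ℕ), 1 ≤ N → (∀ i, N ≤ (A i).card) → ∀ S : Finset (Fin k → α),
      (∀ a ∈ S, ∀ i, a i ∈ A i) →
      (∀ a b : Fin k → α, (∀ i, a i ≠ b i) →
        ∃ I : Finset (Fin k), (fun i => if i ∈ I then b i else a i) ∉ S) →
      (S.card : ℝ) * (N : ℝ) ^ ((1 : ℝ) / 2 ^ k) ≤ C0 * ∏ i, ((A i).card : ℝ))
    {y : ℝ} (hy : 0 < y) {S : Finset ℕ}
    (hS : ∀ (p : Fin k → Fin 2 → ℕ) (m : ℕ), (∀ i e, (p i e).Prime) →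
      Function.Injective (fun ie : Fin k × Fin 2 => p ie.1 ie.2) →
      ∃ ε : Fin k → Fin 2, m * ∏ i, p i (ε i) ∉ S) (e : Fin k → ℕ) (m : ℕ) :
    ((HH k y S e m).card : ℝ) * (y / 2) ^ ((1 : ℝ) / 2 ^ k) ≤ C0 * ∏ i, (2 : ℝ) ^ e i := by
  rcases (HH k y S e m).eq_empty_or_nonempty with h0 | ⟨p0, hp0⟩
  · rw [h0]
    simp only [Finset.card_empty, Nat.cast_zero, zero_mul]
    positivity
  have hcard : ∀ i, (Ico (2 ^ e i) (2 ^ (e i + 1))).card = 2 ^ e i := by
    intro i
    rw [Nat.card_Ico, pow_succ]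
    omega
  have hN : ∀ i, ⌈y / 2⌉₊ ≤ (Ico (2 ^ e i) (2 ^ (e i + 1))).card := by
    intro i
    rw [hcard, Nat.ceil_le]
    obtain ⟨h1, -, -, h2, -⟩ := mem_HH.1 hp0
    have h3 : (p0 i : ℝ) < (2 : ℝ) ^ (e i + 1) := by exact_mod_cast (h1 i).2
    have h4 := h2 i
    rw [pow_succ] at h3
    push_cast
    linarith
  have h1 := hbox ℕ (fun i => Ico (2 ^ e i) (2 ^ (e i + 1))) ⌈y / 2⌉₊
    (Nat.one_le_iff_ne_zero.2 (Nat.ceil_pos.2 (by linarith)).ne') hN (HH k y S e m)
    (fun a ha i => by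
      rw [Finset.mem_Ico]
      exact (mem_HH.1 ha).1 i)
    (by
      intro a b hab
      by_contra hcon
      push Not at hcon
      let p : Fin k → Fin 2 → ℕ := fun i ε => if ε = 1 then b i else a i
      have hp : ∀ ε : Fin k → Fin 2, (fun i => p i (ε i)) ∈ HH k y S e m := by
        intro ε
        have h2 := hcon (Finset.univ.filter fun i => ε i = 1)
        have h3 : (fun i => if i ∈ Finset.univ.filter (fun i => ε i = 1) then b i else a i) =
            fun i => p i (ε i) := by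
          funext i
          simp [p]
        rw [h3] at h2
        exact h2
      obtain ⟨ε, hε⟩ := hS p m (fun i ε => (mem_HH.1 (hp fun _ => ε)).2.2.1 i) (by
        rintro ⟨i, ε⟩ ⟨j, δ⟩ h
        have h : p i ε = p j δ := h
        by_cases hij : i = j
        · subst hij
          have : ε = δ := by
            by_contra hne
            have h5 : p i 0 = p i 1 := by
              fin_cases ε <;> fin_cases δ
              · exact absurd rfl hne
              · exact h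
              · exact h.symm
              · exact absurd rfl hne
            exact hab i h5
          rw [this]
        · exfalso
          have h2 := (mem_HH.1 (hp fun l => if l = i then ε else δ)).2.1
          have h3 : (fun l => p l (if l = i then ε else δ)) i =
              (fun l => p l (if l = i then ε else δ)) j := by
            show p i (if i = i then ε else δ) = p j (if j = i then ε else δ)
            rw [if_pos rfl, if_neg fun h => hij h.symm]
            exact h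
          exact hij (h2 h3))
      exact hε (mem_HH.1 (hp ε)).2.2.2.2)
  simp only [hcard] at h1
  push_cast at h1
  refine le_trans ?_ h1
  refine mul_le_mul_of_nonneg_left ?_ (Nat.cast_nonneg _)
  exact Real.rpow_le_rpow (by positivity) (Nat.le_ceil _) (by positivity)

/-- each element of `S` comes from a tuple -/
theorem cover {k : ℕ} {y : ℝ} {x : ℕ} {S : Finset ℕ} (hS : S ⊆ Finset.Icc 1 x)
    (h : ∀ a ∈ S, k ≤ (a.primeFactors.filter (fun p : ℕ => y < (p : ℝ))).card) {a : ℕ}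
    (ha : a ∈ S) : ∃ e ∈ (Fintype.piFinset fun _ : Fin k => range (Nat.log 2 x + 1)),
      ∃ m ∈ Icc 1 (x / ∏ i, 2 ^ e i), ∃ p ∈ HH k y S e m, m * ∏ i, p i = a := by
  obtain ⟨T, hT, hTk⟩ := Finset.exists_subset_card_eq (h a ha)
  have hax := Finset.mem_Icc.1 (hS ha)
  have ha0 : a ≠ 0 := by omega
  have hTF : ∀ p ∈ T, p.Prime ∧ p ∣ a ∧ y < (p : ℝ) := by
    intro p hp
    obtain ⟨h1, h2⟩ := Finset.mem_filter.1 (hT hp)
    exact ⟨Nat.prime_of_mem_primeFactors h1, Nat.dvd_of_mem_primeFactors h1, h2⟩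
  let p : Fin k → ℕ := T.orderEmbOfFin hTk
  have hpT : ∀ i, p i ∈ T := fun i => T.orderEmbOfFin_mem hTk i
  have hpinj : Function.Injective p := (T.orderEmbOfFin hTk).injective
  have hprod : ∏ i, p i ∣ a := by
    have h1 : ∏ i, p i = ∏ q ∈ Finset.univ.image p, q := by
      rw [Finset.prod_image fun i _ j _ hij => hpinj hij]
    rw [h1]
    refine (Finset.prod_dvd_prod_of_subset _ a.primeFactors _ ?_).trans
      (Nat.prod_primeFactors_dvd a)
    intro q hq
    obtain ⟨i, -, rfl⟩ := Finset.mem_image.1 hq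
    exact (Finset.mem_filter.1 (hT (hpT i))).1
  obtain ⟨m, hm⟩ := hprod
  have hm' : m * ∏ i, p i = a := by rw [hm, mul_comm]
  have hm0 : m ≠ 0 := by
    rintro rfl
    simp at hm'
    exact ha0 hm'.symm
  have hpx : ∀ i, p i ≤ x := fun i =>
    (Nat.le_of_dvd (Nat.pos_of_ne_zero ha0) (hTF _ (hpT i)).2.1).trans hax.2
  have hp0 : ∀ i, p i ≠ 0 := fun i => (hTF _ (hpT i)).1.ne_zero
  refine ⟨fun i => Nat.log 2 (p i), ?_, m, ?_, p, ?_, hm'⟩
  · rw [Fintype.mem_piFinset]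
    intro i
    rw [Finset.mem_range]
    have := Nat.log_mono_right (b := 2) (hpx i)
    omega
  · rw [Finset.mem_Icc]
    refine ⟨Nat.one_le_iff_ne_zero.2 hm0, ?_⟩
    rw [Nat.le_div_iff_mul_le (Finset.prod_pos fun i _ => by positivity)]
    refine le_trans ?_ (hm'.le.trans hax.2)
    refine Nat.mul_le_mul_left _ (Finset.prod_le_prod' fun i _ => ?_)
    exact Nat.pow_log_le_self 2 (hp0 i)
  · refine mem_HH.2 ⟨fun i => ⟨Nat.pow_log_le_self 2 (hp0 i), ?_⟩, hpinj,
      fun i => (hTF _ (hpT i)).1, fun i => (hTF _ (hpT i)).2.2, ?_⟩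
    · exact Nat.lt_pow_succ_log_self (by norm_num) _
    · rw [hm']
      exact ha

end SM2

open SM2 in
theorem pf_SM2 (h : T_BOX) : T_SM2 := by
  classical
  intro k
  obtain ⟨C0, hC0, hbox⟩ := h k
  refine ⟨2 ^ k * ((k : ℝ) + 2), 2 * 3 ^ k * C0, by positivity, by positivity, ?_⟩
  intro x hx S hSx hSk hS
  rcases Nat.eq_zero_or_pos k with hk | hk
  · subst hk
    have hSe : S = ∅ := by
      refine Finset.eq_empty_of_forall_notMem fun a ha => ?_
      obtain ⟨ε, hε⟩ := hS (fun i => i.elim0) a (fun i => i.elim0) (fun i => i.1.elim0)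
      simp at hε
      exact hε ha
    rw [hSe]
    simp only [Finset.card_empty, Nat.cast_zero, zero_mul]
    positivity
  have hx3 : (3 : ℝ) ≤ x := by exact_mod_cast hx
  have hL1 : 1 ≤ Real.log x := by
    rw [Real.le_log_iff_exp_le (by linarith)]
    exact (Real.exp_one_lt_d9.le.trans (by norm_num)).trans hx3
  have hL0 : 0 < Real.log x := by linarith
  set L := Real.log x with hL
  set y : ℝ := L ^ (2 ^ k * ((k : ℝ) + 2)) with hy
  have hy0 : 0 < y := Real.rpow_pos_of_pos hL0 _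
  -- the lower bound of the gain
  have hgain : L ^ (k + 2) ≤ 2 * (y / 2) ^ ((1 : ℝ) / 2 ^ k) := by
    have h2k : (0 : ℝ) < 2 ^ k := by positivity
    have h1 : y ^ ((1 : ℝ) / 2 ^ k) = L ^ (k + 2) := by
      rw [hy, ← Real.rpow_mul hL0.le]
      have : 2 ^ k * ((k : ℝ) + 2) * (1 / 2 ^ k) = ((k + 2 : ℕ) : ℝ) := by
        push_cast
        field_simp
      rw [this, Real.rpow_natCast]
    rw [Real.div_rpow hy0.le (by norm_num), h1]
    have h2 : (2 : ℝ) ^ ((1 : ℝ) / 2 ^ k) ≤ 2 := by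
      calc (2 : ℝ) ^ ((1 : ℝ) / 2 ^ k) ≤ (2 : ℝ) ^ (1 : ℝ) := by
            refine Real.rpow_le_rpow_of_exponent_le (by norm_num) ?_
            rw [div_le_one h2k]
            exact one_le_pow₀ (by norm_num)
        _ = 2 := Real.rpow_one _
    have h3 : (0 : ℝ) < (2 : ℝ) ^ ((1 : ℝ) / 2 ^ k) := Real.rpow_pos_of_pos (by norm_num) _
    rw [mul_div_assoc', le_div_iff₀ h3]
    have h4 : 0 ≤ L ^ (k + 2) := by positivity
    nlinarith
  have hH : ∀ (e : Fin k → ℕ) (m : ℕ),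
      ((HH k y S e m).card : ℝ) * L ^ (k + 2) ≤ 2 * C0 * ∏ i, (2 : ℝ) ^ e i := by
    intro e m
    have h1 := card_HH hC0 hbox hy0 hS e m
    calc ((HH k y S e m).card : ℝ) * L ^ (k + 2)
        ≤ ((HH k y S e m).card : ℝ) * (2 * (y / 2) ^ ((1 : ℝ) / 2 ^ k)) :=
          mul_le_mul_of_nonneg_left hgain (Nat.cast_nonneg _)
      _ = 2 * (((HH k y S e m).card : ℝ) * (y / 2) ^ ((1 : ℝ) / 2 ^ k)) := by ring
      _ ≤ 2 * (C0 * ∏ i, (2 : ℝ) ^ e i) := by linarith
      _ = _ := by ring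
  -- the covering
  set EE := Fintype.piFinset fun _ : Fin k => range (Nat.log 2 x + 1) with hEE
  have hsub : S ⊆ EE.biUnion fun e => (Icc 1 (x / ∏ i, 2 ^ e i)).biUnion fun m =>
      (HH k y S e m).image fun p => m * ∏ i, p i := by
    intro a ha
    obtain ⟨e, he, m, hm, p, hp, hpa⟩ := cover hSx hSk ha
    exact Finset.mem_biUnion.2 ⟨e, he, Finset.mem_biUnion.2 ⟨m, hm,
      Finset.mem_image.2 ⟨p, hp, hpa⟩⟩⟩
  have hcard : (S.card : ℝ) ≤
      ∑ e ∈ EE, ∑ m ∈ Icc 1 (x / ∏ i, 2 ^ e i), ((HH k y S e m).card : ℝ) := by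
    have h1 : S.card ≤ ∑ e ∈ EE, ∑ m ∈ Icc 1 (x / ∏ i, 2 ^ e i), (HH k y S e m).card := by
      refine (Finset.card_le_card hsub).trans (Finset.card_biUnion_le.trans ?_)
      refine Finset.sum_le_sum fun e _ => Finset.card_biUnion_le.trans ?_
      exact Finset.sum_le_sum fun m _ => Finset.card_image_le
    exact_mod_cast h1
  have hsum : (S.card : ℝ) * L ^ (k + 2) ≤ (EE.card : ℝ) * (2 * C0 * x) := by
    calc (S.card : ℝ) * L ^ (k + 2)
        ≤ (∑ e ∈ EE, ∑ m ∈ Icc 1 (x / ∏ i, 2 ^ e i), ((HH k y S e m).card : ℝ)) * L ^ (k + 2) :=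
          mul_le_mul_of_nonneg_right hcard (by positivity)
      _ = ∑ e ∈ EE, ∑ m ∈ Icc 1 (x / ∏ i, 2 ^ e i),
          ((HH k y S e m).card : ℝ) * L ^ (k + 2) := by
          rw [Finset.sum_mul]
          exact Finset.sum_congr rfl fun e _ => by rw [Finset.sum_mul]
      _ ≤ ∑ e ∈ EE, ∑ _m ∈ Icc 1 (x / ∏ i, 2 ^ e i), 2 * C0 * ∏ i, (2 : ℝ) ^ e i :=
          Finset.sum_le_sum fun e _ => Finset.sum_le_sum fun m _ => hH e m
      _ ≤ ∑ _e ∈ EE, 2 * C0 * x := by
          refine Finset.sum_le_sum fun e _ => ?_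
          rw [Finset.sum_const, nsmul_eq_mul, Nat.card_Icc]
          have h1 : ((x / ∏ i, 2 ^ e i + 1 - 1 : ℕ) : ℝ) ≤ (x : ℝ) / ∏ i, (2 : ℝ) ^ e i := by
            rw [Nat.add_sub_cancel]
            refine Nat.cast_div_le.trans (le_of_eq ?_)
            push_cast
            rfl
          have h2 : (0 : ℝ) < ∏ i, (2 : ℝ) ^ e i := Finset.prod_pos fun i _ => by positivity
          calc ((x / ∏ i, 2 ^ e i + 1 - 1 : ℕ) : ℝ) * (2 * C0 * ∏ i, (2 : ℝ) ^ e i)
              ≤ ((x : ℝ) / ∏ i, (2 : ℝ) ^ e i) * (2 * C0 * ∏ i, (2 : ℝ) ^ e i) :=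
                mul_le_mul_of_nonneg_right h1 (by positivity)
            _ = 2 * C0 * x := by
                field_simp
      _ = (EE.card : ℝ) * (2 * C0 * x) := by rw [Finset.sum_const, nsmul_eq_mul]
  have hEc : (EE.card : ℝ) ≤ (3 * L) ^ k := by
    have h1 : EE.card = (Nat.log 2 x + 1) ^ k := by
      rw [hEE, Fintype.card_piFinset]
      simp
    rw [h1]
    push_cast
    refine pow_le_pow_left₀ (by positivity) ?_ k
    have h2 : (Nat.log 2 x : ℝ) * Real.log 2 ≤ L := by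
      have h3 : ((2 ^ Nat.log 2 x : ℕ) : ℝ) ≤ (x : ℝ) := by
        exact_mod_cast Nat.pow_log_le_self 2 (by omega)
      have h4 := Real.log_le_log (by positivity) h3
      push_cast at h4
      rwa [Real.log_pow] at h4
    have h5 : (0.6931471803 : ℝ) < Real.log 2 := Real.log_two_gt_d9
    have h6 : (0 : ℝ) ≤ (Nat.log 2 x : ℝ) := Nat.cast_nonneg _
    nlinarith
  have h1 : (S.card : ℝ) * L * L ^ (k + 1) ≤ (2 * 3 ^ k * C0 * x) * L ^ (k + 1) := by
    calc (S.card : ℝ) * L * L ^ (k + 1) = (S.card : ℝ) * L ^ (k + 2) := by ring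
      _ ≤ (EE.card : ℝ) * (2 * C0 * x) := hsum
      _ ≤ (3 * L) ^ k * (2 * C0 * x) := mul_le_mul_of_nonneg_right hEc (by positivity)
      _ = (2 * 3 ^ k * C0 * x) * L ^ k := by rw [mul_pow]; ring
      _ ≤ (2 * 3 ^ k * C0 * x) * L ^ (k + 1) := by
          refine mul_le_mul_of_nonneg_left ?_ (by positivity)
          exact pow_le_pow_right₀ hL1 (by omega)
  exact le_of_mul_le_mul_right h1 (by positivity)

end Pool.Agent.H69.AAP
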